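import Mathlib.Combinatorics.Configuration
import Mathlib.Algebra.BigOperators.Ring.Finset
import Mathlib.Algebra.Order.BigOperators.Ring.Finset
import Mathlib.Algebra.Order.Field.Basic
import Mathlib.Data.Finset.Sort
import Mathlib.Data.Fintype.BigOperators
import Mathlib.Algebra.BigOperators.Intervals
import Mathlib.Algebra.Order.Archimedean.Basic
import Mathlib.Algebra.Order.Archimedean.Real.Basic
import Mathlib.LinearAlgebra.Projectivization.Cardinality
import Mathlib.Combinatorics.Colex
import Mathlib.Data.ZMod.Basic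
import Mathlib.Algebra.Field.ZMod
import Mathlib.Data.Nat.Prime.Infinite
import Mathlib.Tactic

/-!
# Dual irregularity strength of finite projective planes

For every finite projective plane of order `q`, the dual irregularity strength `s` satisfies
`(q + 1) (q ^ 2 + q + 2) ≤ 3 (s - 1) ^ 2`.  In particular it is at least `q ^ (3/2) / √3`, and it is
not bounded by a constant times `q`.
-/

set_option autoImplicit false

namespace Pool.Agent.Results.MP_aa9284_co.StrengthLower

open Finset Configuration

/-- The sum of the labels of the points of the line `l`. -/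
noncomputable def lineSum {P L : Type} [Membership P L] [Fintype P] (w : P → ℕ) (l : L) : ℕ :=
  open Classical in ∑ x with x ∈ l, w x

/-- `w` is a line-irregular labelling of the points with positive integers which are at
most `s`: the line sums of distinct lines are distinct. -/
def IsIrregular (P L : Type) [Membership P L] [Fintype P] (s : ℕ) (w : P → ℕ) : Prop :=
  (∀ x, 1 ≤ w x ∧ w x ≤ s) ∧ Function.Injective (fun l : L => lineSum w l)

/-- The dual irregularity strength: the least `s` such that there is a line-irregular labelling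
with labels in `{1, …, s}`. -/
noncomputable def dualStrength (P L : Type) [Membership P L] [Fintype P] : ℕ :=
  sInf {s : ℕ | ∃ w : P → ℕ, IsIrregular P L s w}

/-- distinct lines are distinct sets of points -/
theorem line_ext {P L : Type} [Membership P L] [ProjectivePlane P L] [Finite P] [Finite L]
    {l m : L} (h : ∀ x : P, x ∈ l ↔ x ∈ m) : l = m := by
  have h2 := ProjectivePlane.two_lt_pointCount P l
  rw [pointCount] at h2
  have : Finite {p : P // p ∈ l} := inferInstance
  have := Fintype.ofFinite {p : P // p ∈ l}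
  rw [Nat.card_eq_fintype_card] at h2
  obtain ⟨a, b, hab⟩ := Fintype.one_lt_card_iff.1 (lt_trans one_lt_two h2)
  have hab' : a.1 ≠ b.1 := fun e => hab (Subtype.ext e)
  exact (Nondegenerate.eq_or_eq a.2 b.2 ((h _).1 a.2) ((h _).1 b.2)).resolve_left hab'

/-- there is a line-irregular labelling -/
theorem exists_irregular (P L : Type) [Membership P L] [Fintype P] [Finite L]
    [ProjectivePlane P L] : {s : ℕ | ∃ w : P → ℕ, IsIrregular P L s w}.Nonempty := by
  classical
  let e : P ≃ Fin (Fintype.card P) := Fintype.equivFin P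
  refine ⟨2 ^ (Fintype.card P), fun x => 2 ^ (e x : ℕ), fun x => ⟨Nat.one_le_two_pow, ?_⟩, ?_⟩
  · exact Nat.pow_le_pow_right (by norm_num) (e x).2.le
  · intro l m h
    have key : ∀ l : L, lineSum (fun x : P => 2 ^ (e x : ℕ)) l =
        ∑ i ∈ (univ.filter (fun x : P => x ∈ l)).image (fun x => (e x : ℕ)), 2 ^ i := by
      intro l
      rw [Finset.sum_image (fun x _ y _ hxy => e.injective (Fin.ext hxy)), lineSum]
    have h' : lineSum (fun x : P => 2 ^ (e x : ℕ)) l = lineSum (fun x : P => 2 ^ (e x : ℕ)) m := h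
    rw [key, key] at h'
    have h2 := Finset.geomSum_injective (le_refl 2) h'
    apply line_ext (P := P)
    intro x
    have h3 : ∀ l : L, x ∈ l ↔ (e x : ℕ) ∈
        (univ.filter (fun x : P => x ∈ l)).image (fun x => (e x : ℕ)) := by
      intro l
      constructor
      · intro hx
        exact Finset.mem_image.2 ⟨x, by simp [hx], rfl⟩
      · intro hx
        obtain ⟨y, hy, hyx⟩ := Finset.mem_image.1 hx
        have : y = x := e.injective (Fin.ext hyx)
        subst this
        simpa using hy
    rw [h3 l, h3 m, h2]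

/-! ### Distinct integers are spread out -/

theorem sum_id_fin (n : ℕ) : 2 * ∑ i : Fin n, (i : ℤ) = n * (n - 1) := by
  induction n with
  | zero => simp
  | succ n ih =>
    rw [Fin.sum_univ_castSucc]
    simp only [Fin.val_castSucc, Fin.val_last]
    rw [mul_add, ih]
    push_cast
    ring

theorem sum_sq_fin (n : ℕ) : 6 * ∑ i : Fin n, (i : ℤ) ^ 2 = n * (n - 1) * (2 * n - 1) := by
  induction n with
  | zero => simp
  | succ n ih =>
    rw [Fin.sum_univ_castSucc]
    simp only [Fin.val_castSucc, Fin.val_last]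
    rw [mul_add, ih]
    push_cast
    ring

theorem double_sum_eq {ι : Type} [Fintype ι] (f : ι → ℤ) :
    ∑ i, ∑ j, (f i - f j) ^ 2 =
      2 * ((Fintype.card ι : ℤ) * ∑ i, f i ^ 2 - (∑ i, f i) ^ 2) := by
  have h : ∀ i j, (f i - f j) ^ 2 = f i ^ 2 - 2 * (f i * f j) + f j ^ 2 := fun i j => by ring
  simp_rw [h, Finset.sum_add_distrib, Finset.sum_sub_distrib, ← Finset.mul_sum]
  simp only [Finset.sum_const, Finset.card_univ, nsmul_eq_mul, ← Finset.mul_sum,
    ← Finset.sum_mul]
  ring

/-- the double sum for an injective family of integers -/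
theorem spread {ι : Type} [Fintype ι] (f : ι → ℕ) (hf : Function.Injective f) :
    ((Fintype.card ι : ℤ)) ^ 2 * ((Fintype.card ι : ℤ) ^ 2 - 1) ≤
      12 * ((Fintype.card ι : ℤ) * ∑ i, (f i : ℤ) ^ 2 - (∑ i, (f i : ℤ)) ^ 2) := by
  classical
  set n := Fintype.card ι with hn
  let T : Finset ℕ := univ.image f
  have hT : T.card = n := by
    rw [Finset.card_image_of_injective _ hf, Finset.card_univ]
  let g : Fin n ↪o ℕ := T.orderEmbOfFin hT
  have hsum : ∀ φ : ℕ → ℤ, ∑ i, φ (f i) = ∑ k : Fin n, φ (g k) := by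
    intro φ
    rw [← Finset.sum_image (f := φ) (g := f) (s := univ) (fun x _ y _ h => hf h)]
    have : T = univ.image g := by
      ext x
      constructor
      · intro hx
        have h0 := Finset.range_orderEmbOfFin T hT
        have hx' : x ∈ Set.range (T.orderEmbOfFin hT) := by
          rw [h0, Finset.mem_coe]
          exact hx
        obtain ⟨k, hk⟩ := hx'
        exact Finset.mem_image.2 ⟨k, mem_univ _, hk⟩
      · intro hx
        obtain ⟨k, -, rfl⟩ := Finset.mem_image.1 hx
        exact Finset.orderEmbOfFin_mem T hT k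
    change ∑ x ∈ T, φ x = _
    rw [this, Finset.sum_image (fun x _ y _ h => g.injective h)]
  have h1 : ∑ i : Fin n, ∑ j : Fin n, (((i : ℕ) : ℤ) - ((j : ℕ) : ℤ)) ^ 2 ≤
      ∑ i : Fin n, ∑ j : Fin n, ((g i : ℤ) - (g j : ℤ)) ^ 2 := by
    have mono : ∀ i j : Fin n, i ≤ j → ((j : ℕ) : ℤ) - ((i : ℕ) : ℤ) ≤ (g j : ℤ) - (g i : ℤ) := by
      intro i j hij
      obtain ⟨d, hd⟩ : ∃ d : ℕ, (j : ℕ) = i + d := Nat.exists_eq_add_of_le hij
      have : ∀ d : ℕ, ∀ (hd : (i : ℕ) + d < n), (g i : ℤ) + d ≤ g ⟨i + d, hd⟩ := by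
        intro d
        induction d with
        | zero => intro hd; simp
        | succ d ih =>
          intro hd
          have h2 : (i : ℕ) + d < n := by omega
          have h3 := ih h2
          have h4 : g ⟨i + d, h2⟩ < g ⟨i + (d + 1), hd⟩ := by
            apply g.strictMono
            rw [Fin.lt_def]
            simp
          have h5 : ((g ⟨i + d, h2⟩ : ℕ) : ℤ) + 1 ≤ g ⟨i + (d + 1), hd⟩ := by exact_mod_cast h4
          push_cast
          linarith
      have hj : (i : ℕ) + d < n := by rw [← hd]; exact j.2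
      have h6 := this d hj
      have h7 : (⟨i + d, hj⟩ : Fin n) = j := Fin.ext hd.symm
      rw [h7] at h6
      have h8 : ((j : ℕ) : ℤ) = (i : ℕ) + d := by exact_mod_cast hd
      linarith
    apply Finset.sum_le_sum
    intro i _
    apply Finset.sum_le_sum
    intro j _
    rcases le_total i j with h | h
    · have h2 := mono i j h
      have h3 : (0 : ℤ) ≤ ((j : ℕ) : ℤ) - ((i : ℕ) : ℤ) := by
        have : (i : ℕ) ≤ j := h
        have : ((i : ℕ) : ℤ) ≤ ((j : ℕ) : ℤ) := by exact_mod_cast this
        linarith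
      nlinarith
    · have h2 := mono j i h
      have h3 : (0 : ℤ) ≤ ((i : ℕ) : ℤ) - ((j : ℕ) : ℤ) := by
        have : (j : ℕ) ≤ i := h
        have : ((j : ℕ) : ℤ) ≤ ((i : ℕ) : ℤ) := by exact_mod_cast this
        linarith
      nlinarith
  rw [double_sum_eq, double_sum_eq, Fintype.card_fin] at h1
  rw [hsum (fun x => (x : ℤ) ^ 2), hsum (fun x => (x : ℤ))]
  have e1 := sum_id_fin n
  have e2 := sum_sq_fin n
  have e3 : (∑ i : Fin n, (i : ℤ)) ^ 2 * 4 = (n * (n - 1)) ^ 2 := by rw [← e1]; ring
  nlinarith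

/-! ### The identity for line sums -/

section plane

variable (P L : Type) [Membership P L] [Fintype P] [Fintype L] [ProjectivePlane P L]

theorem sum_lineSum (w : P → ℕ) :
    ∑ l : L, (lineSum w l : ℤ) = (ProjectivePlane.order P L + 1) * ∑ x, (w x : ℤ) := by
  classical
  simp only [lineSum]
  push_cast
  simp_rw [Finset.sum_filter]
  rw [Finset.sum_comm, Finset.mul_sum]
  apply Finset.sum_congr rfl
  intro x _
  rw [← Finset.sum_filter, Finset.sum_const, nsmul_eq_mul]
  congr 1
  have h := ProjectivePlane.lineCount_eq (P := P) L x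
  rw [lineCount, Nat.card_eq_fintype_card, Fintype.card_subtype] at h
  exact_mod_cast h

theorem sum_lineSum_sq (w : P → ℕ) :
    ∑ l : L, (lineSum w l : ℤ) ^ 2 =
      ProjectivePlane.order P L * ∑ x, (w x : ℤ) ^ 2 + (∑ x, (w x : ℤ)) ^ 2 := by
  classical
  have h1 : ∀ l : L, (lineSum w l : ℤ) ^ 2 =
      ∑ x, ∑ y, if x ∈ l ∧ y ∈ l then (w x : ℤ) * w y else 0 := by
    intro l
    rw [sq, lineSum]
    push_cast
    simp_rw [Finset.sum_filter]
    rw [Finset.sum_mul_sum]
    apply Finset.sum_congr rfl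
    intro x _
    apply Finset.sum_congr rfl
    intro y _
    by_cases hx : x ∈ l <;> by_cases hy : y ∈ l <;> simp [hx, hy]
  simp_rw [h1]
  rw [Finset.sum_comm]
  have h2 : ∀ x : P, ∑ l : L, ∑ y, (if x ∈ l ∧ y ∈ l then (w x : ℤ) * w y else 0) =
      (w x : ℤ) * (∑ y, (w y : ℤ)) + ProjectivePlane.order P L * (w x : ℤ) ^ 2 := by
    intro x
    rw [Finset.sum_comm]
    have h3 : ∀ y : P, ∑ l : L, (if x ∈ l ∧ y ∈ l then (w x : ℤ) * w y else 0) =
        (w x : ℤ) * w y + if x = y then ProjectivePlane.order P L * ((w x : ℤ) * w y) else 0 := by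
      intro y
      rw [← Finset.sum_filter, Finset.sum_const, nsmul_eq_mul]
      by_cases hxy : x = y
      · subst hxy
        simp only [and_self, if_true]
        have h := ProjectivePlane.lineCount_eq (P := P) L x
        rw [lineCount, Nat.card_eq_fintype_card, Fintype.card_subtype] at h
        rw [h]
        push_cast
        ring
      · simp only [hxy, if_false, add_zero]
        have h4 : (univ.filter (fun l : L => x ∈ l ∧ y ∈ l)).card = 1 := by
          rw [Finset.card_eq_one]
          obtain ⟨l, hl, hl'⟩ := HasLines.existsUnique_line P L x y hxy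
          refine ⟨l, ?_⟩
          ext m
          simp only [mem_filter, mem_univ, true_and, mem_singleton]
          constructor
          · intro hm
            exact hl' m hm
          · rintro rfl
            exact hl
        rw [h4]
        simp
    simp_rw [h3]
    rw [Finset.sum_add_distrib, ← Finset.mul_sum]
    simp only [Finset.sum_ite_eq, mem_univ, if_true]
    ring
  simp_rw [h2]
  rw [Finset.sum_add_distrib, ← Finset.sum_mul, ← Finset.mul_sum]
  ring

theorem bound_of_irregular {s : ℕ} {w : P → ℕ} (h : IsIrregular P L s w) :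
    (ProjectivePlane.order P L + 1) * (ProjectivePlane.order P L ^ 2 +
      ProjectivePlane.order P L + 2) ≤ 3 * (s - 1) ^ 2 := by
  classical
  obtain ⟨hw, hinj⟩ := h
  set q := ProjectivePlane.order P L with hq
  have hq1 : 1 < q := ProjectivePlane.one_lt_order P L
  have h1 := spread (fun l : L => lineSum w l) hinj
  rw [sum_lineSum P L w, sum_lineSum_sq P L w, ProjectivePlane.card_lines P L, ← hq] at h1
  have hcard : Fintype.card P = q ^ 2 + q + 1 := ProjectivePlane.card_points P L
  have hs : 1 ≤ s := by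
    obtain ⟨p, -⟩ := @ProjectivePlane.exists_config P L _ _
    exact le_trans (hw p).1 (hw p).2
  have h2 : ∑ x, (w x : ℤ) ^ 2 ≤ (s + 1) * ∑ x, (w x : ℤ) - s * (q ^ 2 + q + 1) := by
    have h3 : ∀ x : P, (w x : ℤ) ^ 2 ≤ (s + 1) * (w x : ℤ) - s := by
      intro x
      have a : (1 : ℤ) ≤ w x := by exact_mod_cast (hw x).1
      have b : (w x : ℤ) ≤ s := by exact_mod_cast (hw x).2
      nlinarith
    have h4 := Finset.sum_le_sum (fun x (_ : x ∈ (univ : Finset P)) => h3 x)
    rw [Finset.sum_sub_distrib, ← Finset.mul_sum, Finset.sum_const, Finset.card_univ, hcard,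
      nsmul_eq_mul] at h4
    push_cast at h4
    linarith
  set W : ℤ := ∑ x, (w x : ℤ) with hW
  set Q : ℤ := ∑ x, (w x : ℤ) ^ 2 with hQ
  have hqz : (1 : ℤ) < q := by exact_mod_cast hq1
  push_cast at h1
  obtain ⟨r, rfl⟩ : ∃ r, s = r + 1 := ⟨s - 1, by omega⟩
  have goal : ((q : ℤ) + 1) * (q ^ 2 + q + 2) ≤ 3 * (r : ℤ) ^ 2 := by
    set v : ℤ := (q : ℤ) ^ 2 + q + 1 with hv
    have hvpos : 0 < v := by positivity
    -- v * Q - W ^ 2 ≤ v ^ 2 * r ^ 2 / 4
    have h5 : 4 * (v * Q - W ^ 2) ≤ v ^ 2 * r ^ 2 := by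
      push_cast at h2
      have h6 : v * Q ≤ v * ((r + 1 + 1) * W - (r + 1) * v) := mul_le_mul_of_nonneg_left h2 hvpos.le
      nlinarith [sq_nonneg (2 * W - v * (r + 2))]
    have h6 : v ^ 2 * (v ^ 2 - 1) ≤ 12 * (q * (v * Q - W ^ 2)) := by
      have e : v * (q * Q + W ^ 2) - ((q + 1) * W) ^ 2 = q * (v * Q - W ^ 2) := by
        rw [hv]; ring
      rw [e] at h1
      exact h1
    have h7 : v ^ 2 * (v ^ 2 - 1) ≤ v ^ 2 * (3 * q * r ^ 2) := by
      have : 12 * (q * (v * Q - W ^ 2)) ≤ 3 * q * (v ^ 2 * r ^ 2) := by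
        have hq0 : (0 : ℤ) ≤ 3 * q := by positivity
        nlinarith [mul_le_mul_of_nonneg_left h5 hq0]
      calc _ ≤ _ := h6
        _ ≤ _ := this
        _ = _ := by ring
    have h8 : v ^ 2 - 1 ≤ 3 * q * r ^ 2 := le_of_mul_le_mul_left h7 (by positivity)
    have e2 : v ^ 2 - 1 = q * ((q + 1) * (q ^ 2 + q + 2)) := by rw [hv]; ring
    have h9 : (q : ℤ) * ((q + 1) * (q ^ 2 + q + 2)) ≤ q * (3 * r ^ 2) := by
      rw [← e2]; linarith
    exact le_of_mul_le_mul_left h9 (by linarith)
  have : r + 1 - 1 = r := by omega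
  rw [this]
  exact_mod_cast goal

end plane

/-- Every finite projective plane of order `q` has dual irregularity strength `s` with
`(q + 1) (q ^ 2 + q + 2) ≤ 3 (s - 1) ^ 2`; and there is no constant `c` such that the dual
irregularity strength of every finite projective plane is at most `c` times its order. -/
theorem result :
    (∀ (P L : Type) [Membership P L] [Fintype P] [Fintype L] [ProjectivePlane P L],
      (ProjectivePlane.order P L + 1) * (ProjectivePlane.order P L ^ 2 +
        ProjectivePlane.order P L + 2) ≤ 3 * (dualStrength P L - 1) ^ 2) ∧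
    ¬ ∃ c : ℝ, ∀ (P L : Type) [Membership P L] [Fintype P] [Fintype L] [ProjectivePlane P L],
      (dualStrength P L : ℝ) ≤ c * (ProjectivePlane.order P L : ℝ) := by
  have main : ∀ (P L : Type) [Membership P L] [Fintype P] [Fintype L] [ProjectivePlane P L],
      (ProjectivePlane.order P L + 1) * (ProjectivePlane.order P L ^ 2 +
        ProjectivePlane.order P L + 2) ≤ 3 * (dualStrength P L - 1) ^ 2 := by
    intro P L _ _ _ _
    obtain ⟨w, hw⟩ := Nat.sInf_mem (exists_irregular P L)
    exact bound_of_irregular P L hw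
  refine ⟨main, ?_⟩
  rintro ⟨c, hc⟩
  obtain ⟨N, hN⟩ := exists_nat_gt (3 * c ^ 2)
  obtain ⟨p, hpN, hp⟩ := Nat.exists_infinite_primes (N + 1)
  have : Fact p.Prime := ⟨hp⟩
  classical
  open scoped LinearAlgebra.Projectivization in
  let X := ℙ (ZMod p) (Fin 3 → ZMod p)
  have : Fintype X := Fintype.ofFinite X
  have h1 := main X X
  have h2 := hc X X
  set q := ProjectivePlane.order X X with hq
  set s := dualStrength X X with hs
  have hcard : Fintype.card X = q ^ 2 + q + 1 := ProjectivePlane.card_points X X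
  -- the order is at least `p`
  have hcard2 : Nat.card X = ∑ i ∈ Finset.range 3, Nat.card (ZMod p) ^ i :=
    Projectivization.card_of_finrank (ZMod p) (Fin 3 → ZMod p) (by simp)
  have hqp : N < q := by
    rw [Nat.card_eq_fintype_card, hcard, Nat.card_zmod] at hcard2
    simp only [Finset.sum_range_succ, Finset.sum_range_zero, pow_zero, pow_one] at hcard2
    by_contra hle
    push Not at hle
    have h3 : q < p := by omega
    nlinarith
  have hq0 : (0 : ℝ) < q := by
    have : 0 < q := by omega
    exact_mod_cast this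
  have hNq : (N : ℝ) < q := by exact_mod_cast hqp
  have hs1 : 1 ≤ s := by
    by_contra h0
    have h0' : s = 0 := by omega
    rw [h0'] at h1
    simp at h1
  have h1' : ((q : ℝ) + 1) * ((q : ℝ) ^ 2 + q + 2) ≤ 3 * ((s : ℝ) - 1) ^ 2 := by
    have : (((q + 1) * (q ^ 2 + q + 2) : ℕ) : ℝ) ≤ ((3 * (s - 1) ^ 2 : ℕ) : ℝ) := by
      exact_mod_cast h1
    rw [Nat.cast_mul, Nat.cast_mul, Nat.cast_pow, Nat.cast_sub hs1] at this
    push_cast at this
    exact this
  have hsr : (1 : ℝ) ≤ s := by exact_mod_cast hs1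
  have h5 : ((s : ℝ) - 1) ^ 2 ≤ (c * q) ^ 2 := by
    apply pow_le_pow_left₀ (by linarith) (by linarith)
  have h6 : (q : ℝ) ^ 3 < 3 * c ^ 2 * q ^ 2 := by
    have : (q : ℝ) ^ 3 < (q + 1) * (q ^ 2 + q + 2) := by nlinarith [pow_pos hq0 2, pow_pos hq0 3]
    calc (q : ℝ) ^ 3 < _ := this
      _ ≤ _ := h1'
      _ ≤ 3 * (c * q) ^ 2 := by linarith
      _ = _ := by ring
  have h7 : (q : ℝ) < 3 * c ^ 2 := by
    have h8 : (q : ℝ) * q ^ 2 < 3 * c ^ 2 * q ^ 2 := by
      calc (q : ℝ) * q ^ 2 = q ^ 3 := by ring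
        _ < _ := h6
    exact lt_of_mul_lt_mul_right h8 (by positivity)
  linarith

end Pool.Agent.Results.MP_aa9284_co.StrengthLower
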